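import Mathlib
import Pool.Agent.TH161.LW.Info3

/-!
# A potential function form of Komlós' pigeonhole principle

`c x`, `x ∈ S`, are random variables with values in `{0, …, 2 ^ J - 1}` on a finite probability
space.  If `|P (c x < c y) - P (c y < c x)| ≥ δ` for all `x ≠ y` in `S`, then
`δ² log |S| ≤ 4 J`.  (The entropy theorem `Pool.Agent.TH161.LW.info` has `δ⁴ log |S| ≤ 500 J³`.)

The proof walks down a balanced tree of pivots and keeps the exponential moment of the sum of the
signs (pivot, value) small for all values at the same time, as in the multiplicative weights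
method.
-/

set_option autoImplicit false

open Finset

namespace Pool.Agent.W5h98.KSR

open Pool.Agent.TH161.LW

variable {β Ω : Type*} [Fintype Ω]

open Classical in
/-- in a tournament at most `2 q + 1` vertices have out-degree at most `q` -/
lemma tour (S : Finset β) (r : β → β → Prop) (q : ℕ)
    (hr : ∀ x ∈ S, ∀ y ∈ S, x ≠ y → r x y ∨ r y x) :
    (S.filter fun x => (S.filter fun y => r x y).card ≤ q).card ≤ 2 * q + 1 := by
  set T := S.filter fun x => (S.filter fun y => r x y).card ≤ q with hT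
  have hTS : T ⊆ S := Finset.filter_subset _ _
  have h1 : T.offDiag.card ≤ ∑ x ∈ T, ∑ y ∈ T, ((if r x y then 1 else 0) + (if r y x then 1 else 0)) := by
    rw [← Finset.sum_product', Finset.card_eq_sum_ones]
    refine le_trans (Finset.sum_le_sum fun p hp => ?_)
      (Finset.sum_le_sum_of_subset (f := fun p : β × β =>
        ((if r p.1 p.2 then 1 else 0) + (if r p.2 p.1 then 1 else 0)))
        (s := T.offDiag) (t := T ×ˢ T) (fun p hp => ?_))
    · rw [Finset.mem_offDiag] at hp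
      rcases hr p.1 (hTS hp.1) p.2 (hTS hp.2.1) hp.2.2 with h | h
      · simp [h]
      · simp [h]
    · rw [Finset.mem_offDiag] at hp
      exact Finset.mem_product.mpr ⟨hp.1, hp.2.1⟩
  have h2 : ∑ x ∈ T, ∑ y ∈ T, ((if r x y then 1 else 0) + (if r y x then 1 else 0)) =
      2 * ∑ x ∈ T, ∑ y ∈ T, (if r x y then 1 else 0) := by
    have e : ∑ x ∈ T, ∑ y ∈ T, (if r y x then 1 else 0) =
        ∑ x ∈ T, ∑ y ∈ T, (if r x y then 1 else 0) := Finset.sum_comm
    simp only [Finset.sum_add_distrib]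
    rw [e, two_mul]
  have h3 : ∑ x ∈ T, ∑ y ∈ T, (if r x y then 1 else 0) ≤ T.card * q := by
    rw [← smul_eq_mul]
    refine Finset.sum_le_card_nsmul _ _ _ fun x hx => ?_
    have hx' := (Finset.mem_filter.mp hx).2
    rw [← Finset.card_filter]
    exact le_trans (Finset.card_le_card (Finset.filter_subset_filter _ hTS)) hx'
  rw [h2, Finset.offDiag_card] at h1
  by_contra hcon
  push Not at hcon
  have h4 : T.card * T.card - T.card ≤ 2 * (T.card * q) := h1.trans (by gcongr)
  have h5 : T.card * (2 * q + 2) ≤ T.card * T.card := Nat.mul_le_mul_left _ (by omega)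
  have h6 : 0 < T.card := by omega
  have h7 : T.card * (2 * q + 2) = 2 * (T.card * q) + 2 * T.card := by ring
  omega

open Classical in
/-- a vertex of large out-degree and large in-degree -/
lemma pivot (S : Finset β) (r : β → β → Prop) (n : ℕ) (hn : 4 ^ (n + 1) ≤ S.card)
    (hr : ∀ x ∈ S, ∀ y ∈ S, x ≠ y → r x y ∨ r y x) :
    ∃ j ∈ S, 4 ^ n ≤ (S.filter fun y => r j y).card ∧ 4 ^ n ≤ (S.filter fun y => r y j).card := by
  by_contra hcon
  push Not at hcon
  have h4 : 0 < 4 ^ n := by positivity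
  have h1 := tour S r (4 ^ n - 1) hr
  have h2 := tour S (fun x y => r y x) (4 ^ n - 1) fun x hx y hy hxy => (hr x hx y hy hxy).symm
  have h3 : S ⊆ (S.filter fun x => (S.filter fun y => r x y).card ≤ 4 ^ n - 1) ∪
      (S.filter fun x => (S.filter fun y => r y x).card ≤ 4 ^ n - 1) := by
    intro x hx
    rw [Finset.mem_union, Finset.mem_filter, Finset.mem_filter]
    by_cases h : 4 ^ n ≤ (S.filter fun y => r x y).card
    · right
      have := hcon x hx h
      exact ⟨hx, by omega⟩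
    · left
      exact ⟨hx, by omega⟩
  have h5 := (Finset.card_le_card h3).trans (Finset.card_union_le _ _)
  rw [pow_succ] at hn
  omega

lemma sgn_abs_le (u v : ℕ) : |sgn u v| ≤ 1 := by
  unfold sgn
  split_ifs <;> simp

lemma cosh_avg {l s : ℝ} (hs : |s| ≤ 1) :
    Real.exp (l * s) + Real.exp (l * (-s)) ≤ 2 * Real.exp (l ^ 2 / 2) := by
  have h1 : Real.exp (l * s) + Real.exp (l * (-s)) = 2 * Real.cosh (l * s) := by
    rw [Real.cosh_eq, mul_neg]; ring
  rw [h1]
  have h2 := Real.cosh_le_exp_half_sq (l * s)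
  have h3 : (l * s) ^ 2 / 2 ≤ l ^ 2 / 2 := by
    have : s ^ 2 ≤ 1 := by
      rw [← sq_abs]; nlinarith [abs_nonneg s]
    have := mul_le_mul_of_nonneg_left this (sq_nonneg l)
    rw [mul_pow]; linarith
  have h4 := Real.exp_le_exp.mpr h3
  linarith

open Classical in
/-- the walk down the tree of pivots -/
theorem walk {K : ℕ} {c : β → Ω → ℕ} {δ l : ℝ} (n : ℕ) :
    ∀ S : Finset β, 4 ^ n ≤ S.card →
    (∀ x ∈ S, ∀ y ∈ S, x ≠ y → δ * Fintype.card Ω ≤ |BT c x y|) → 0 < δ * Fintype.card Ω →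
    ∀ w : Ω → ℕ → ℝ, (∀ ω t, 0 ≤ w ω t) →
    ∃ i ∈ S, ∃ G : Ω → ℕ → ℝ,
      ∑ ω, ∑ t ∈ Finset.range K, w ω t * Real.exp (l * G ω t) ≤
        Real.exp (n * (l ^ 2 / 2)) * ∑ ω, ∑ t ∈ Finset.range K, w ω t ∧
      n * (δ * Fintype.card Ω) ≤ ∑ ω, G ω (c i ω) := by
  induction n with
  | zero =>
    intro S hS _ _ w _
    obtain ⟨i, hi⟩ : S.Nonempty := Finset.card_pos.mp (by simpa using hS)
    exact ⟨i, hi, fun _ _ => 0, by simp, by simp⟩
  | succ n ih =>
    intro S hS hB hpos w hw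
    have hne : ∀ x ∈ S, ∀ y ∈ S, x ≠ y → 0 < BT c x y ∨ 0 < BT c y x := by
      intro x hx y hy hxy
      have h1 := lt_of_lt_of_le hpos (hB x hx y hy hxy)
      rcases lt_trichotomy (BT c x y) 0 with h | h | h
      · right
        rw [BT_anti]; linarith
      · rw [h, abs_zero] at h1
        exact absurd h1 (lt_irrefl _)
      · exact Or.inl h
    obtain ⟨j, hj, hj1, hj2⟩ := pivot S (fun x y => 0 < BT c x y) n hS hne
    have hself : ¬ 0 < BT c j j := by
      have := BT_anti c j j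
      intro h; linarith
    set W := ∑ ω, ∑ t ∈ Finset.range K, w ω t with hW
    have hsum : ∑ ω, ∑ t ∈ Finset.range K, w ω t * Real.exp (l * sgn (c j ω) t) +
        ∑ ω, ∑ t ∈ Finset.range K, w ω t * Real.exp (l * (-sgn (c j ω) t)) ≤
        2 * (Real.exp (l ^ 2 / 2) * W) := by
      rw [← Finset.sum_add_distrib, hW, Finset.mul_sum, Finset.mul_sum]
      refine Finset.sum_le_sum fun ω _ => ?_
      rw [← Finset.sum_add_distrib, Finset.mul_sum, Finset.mul_sum]
      refine Finset.sum_le_sum fun t _ => ?_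
      have := mul_le_mul_of_nonneg_left (cosh_avg (l := l) (sgn_abs_le (c j ω) t)) (hw ω t)
      linarith
    have hexp : Real.exp (((n + 1 : ℕ) : ℝ) * (l ^ 2 / 2)) =
        Real.exp (n * (l ^ 2 / 2)) * Real.exp (l ^ 2 / 2) := by
      rw [← Real.exp_add]; congr 1; push_cast; ring
    rcases le_or_gt (∑ ω, ∑ t ∈ Finset.range K, w ω t * Real.exp (l * sgn (c j ω) t))
      (Real.exp (l ^ 2 / 2) * W) with h1 | h1
    · obtain ⟨i, hi, G, hG1, hG2⟩ := ih (S.filter fun y => 0 < BT c j y) hj1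
        (fun x hx y hy => hB x (Finset.mem_filter.mp hx).1 y (Finset.mem_filter.mp hy).1) hpos
        (fun ω t => w ω t * Real.exp (l * sgn (c j ω) t))
        (fun ω t => mul_nonneg (hw ω t) (Real.exp_pos _).le)
      obtain ⟨hi1, hi2⟩ := Finset.mem_filter.mp hi
      have hji : j ≠ i := by
        rintro rfl
        exact hself hi2
      refine ⟨i, hi1, fun ω t => sgn (c j ω) t + G ω t, ?_, ?_⟩
      · have e1 : ∑ ω, ∑ t ∈ Finset.range K, w ω t * Real.exp (l * (sgn (c j ω) t + G ω t)) =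
            ∑ ω, ∑ t ∈ Finset.range K, w ω t * Real.exp (l * sgn (c j ω) t) *
              Real.exp (l * G ω t) := by
          refine Finset.sum_congr rfl fun ω _ => Finset.sum_congr rfl fun t _ => ?_
          rw [mul_add, Real.exp_add, mul_assoc]
        rw [e1, hexp, mul_assoc]
        exact hG1.trans (mul_le_mul_of_nonneg_left h1 (Real.exp_pos _).le)
      · have h2 : δ * Fintype.card Ω ≤ BT c j i := by
          have := hB j hj i hi1 hji
          rwa [abs_of_pos hi2] at this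
        rw [Finset.sum_add_distrib]
        have h3 : ∑ ω, sgn (c j ω) (c i ω) = BT c j i := rfl
        rw [h3]; push_cast; linarith
    · have h1' : ∑ ω, ∑ t ∈ Finset.range K, w ω t * Real.exp (l * (-sgn (c j ω) t)) ≤
          Real.exp (l ^ 2 / 2) * W := by linarith
      obtain ⟨i, hi, G, hG1, hG2⟩ := ih (S.filter fun y => 0 < BT c y j) hj2
        (fun x hx y hy => hB x (Finset.mem_filter.mp hx).1 y (Finset.mem_filter.mp hy).1) hpos
        (fun ω t => w ω t * Real.exp (l * (-sgn (c j ω) t)))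
        (fun ω t => mul_nonneg (hw ω t) (Real.exp_pos _).le)
      obtain ⟨hi1, hi2⟩ := Finset.mem_filter.mp hi
      have hij : i ≠ j := by
        rintro rfl
        exact hself hi2
      refine ⟨i, hi1, fun ω t => -sgn (c j ω) t + G ω t, ?_, ?_⟩
      · have e1 : ∑ ω, ∑ t ∈ Finset.range K, w ω t * Real.exp (l * (-sgn (c j ω) t + G ω t)) =
            ∑ ω, ∑ t ∈ Finset.range K, w ω t * Real.exp (l * (-sgn (c j ω) t)) *
              Real.exp (l * G ω t) := by
          refine Finset.sum_congr rfl fun ω _ => Finset.sum_congr rfl fun t _ => ?_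
          rw [mul_add, Real.exp_add, mul_assoc]
        rw [e1, hexp, mul_assoc]
        exact hG1.trans (mul_le_mul_of_nonneg_left h1' (Real.exp_pos _).le)
      · have h2 : δ * Fintype.card Ω ≤ BT c i j := by
          have := hB i hi1 j hj hij
          rwa [abs_of_pos hi2] at this
        rw [Finset.sum_add_distrib, Finset.sum_neg_distrib]
        have h3 : ∑ ω, sgn (c j ω) (c i ω) = BT c j i := rfl
        rw [h3, ← BT_anti]; push_cast; linarith

theorem info_pow [Nonempty Ω] {J : ℕ} {c : β → Ω → ℕ} {δ : ℝ} (hδ : 0 < δ) (n : ℕ)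
    {S : Finset β} (hS : 4 ^ n ≤ S.card) (hc : ∀ x ∈ S, ∀ ω, c x ω < 2 ^ J)
    (hB : ∀ x ∈ S, ∀ y ∈ S, x ≠ y → δ * Fintype.card Ω ≤ |BT c x y|) :
    n * (δ ^ 2 / 2) ≤ J * Real.log 2 := by
  classical
  have hΩ : (0 : ℝ) < Fintype.card Ω := by exact_mod_cast Fintype.card_pos
  obtain ⟨i, hi, G, h1, h2⟩ := walk (K := 2 ^ J) (c := c) (δ := δ) (l := δ) n S hS hB
    (mul_pos hδ hΩ) (fun _ _ => 1) (fun _ _ => zero_le_one)
  simp only [one_mul, Finset.sum_const, Finset.card_range, Finset.card_univ, nsmul_eq_mul,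
    mul_one] at h1
  set m : ℝ := (Fintype.card Ω : ℝ) with hm
  have h3 : ∑ ω, Real.exp (δ * G ω (c i ω)) ≤
      ∑ ω, ∑ t ∈ Finset.range (2 ^ J), Real.exp (δ * G ω t) := by
    refine Finset.sum_le_sum fun ω _ => ?_
    exact Finset.single_le_sum (f := fun t => Real.exp (δ * G ω t))
      (fun t _ => (Real.exp_pos _).le) (Finset.mem_range.mpr (hc i hi ω))
  set a : ℝ := n * δ ^ 2 with ha
  have h4 : Real.exp a * m ≤ ∑ ω, Real.exp (δ * G ω (c i ω)) := by
    have h5 : ∀ ω, Real.exp a * (δ * G ω (c i ω) - a + 1) ≤ Real.exp (δ * G ω (c i ω)) := by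
      intro ω
      have h6 := Real.add_one_le_exp (δ * G ω (c i ω) - a)
      have h7 := mul_le_mul_of_nonneg_left h6 (Real.exp_pos a).le
      rwa [← Real.exp_add, add_sub_cancel] at h7
    refine le_trans ?_ (Finset.sum_le_sum fun ω _ => h5 ω)
    rw [← Finset.mul_sum]
    refine mul_le_mul_of_nonneg_left ?_ (Real.exp_pos a).le
    rw [Finset.sum_add_distrib, Finset.sum_sub_distrib, ← Finset.mul_sum]
    simp only [Finset.sum_const, Finset.card_univ, nsmul_eq_mul, mul_one, ← hm]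
    have h8 := mul_le_mul_of_nonneg_left h2 hδ.le
    have h9 : δ * (n * (δ * m)) = m * a := by rw [ha]; ring
    linarith
  have h5 : Real.exp a * m ≤ Real.exp (n * (δ ^ 2 / 2)) * (m * ((2 ^ J : ℕ) : ℝ)) :=
    h4.trans (h3.trans h1)
  have h6 : Real.exp a ≤ Real.exp (n * (δ ^ 2 / 2)) * ((2 ^ J : ℕ) : ℝ) := by
    refine le_of_mul_le_mul_right ?_ hΩ
    linarith [h5]
  have h7 : Real.exp a = Real.exp (n * (δ ^ 2 / 2)) * Real.exp (n * (δ ^ 2 / 2)) := by
    rw [← Real.exp_add, ha]; congr 1; ring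
  rw [h7] at h6
  have h8 := le_of_mul_le_mul_left h6 (Real.exp_pos _)
  rw [← Real.log_le_log_iff (Real.exp_pos _) (by positivity), Real.log_exp] at h8
  push_cast at h8
  rwa [Real.log_pow] at h8

/-- **Main lemma.** -/
theorem info [Nonempty Ω] {J : ℕ} (hJ : 1 ≤ J) {c : β → Ω → ℕ} {δ : ℝ} (hδ : 0 < δ)
    (hδ1 : δ ≤ 1) {S : Finset β} (hS : S.Nonempty) (hc : ∀ x ∈ S, ∀ ω, c x ω < 2 ^ J)
    (hB : ∀ x ∈ S, ∀ y ∈ S, x ≠ y → δ * Fintype.card Ω ≤ |BT c x y|) :
    δ ^ 2 * Real.log S.card ≤ 4 * (J : ℝ) := by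
  have hJ' : (1 : ℝ) ≤ J := by exact_mod_cast hJ
  have hN : (0 : ℝ) < S.card := by exact_mod_cast hS.card_pos
  set n := Nat.log 4 S.card with hn
  have h1 := info_pow hδ n (Nat.pow_log_le_self 4 hS.card_pos.ne') hc hB
  have h2 : S.card < 4 ^ (n + 1) := Nat.lt_pow_succ_log_self (by norm_num) _
  have h3 : Real.log S.card ≤ (n + 1) * Real.log 4 := by
    have h4 : (S.card : ℝ) ≤ 4 ^ (n + 1) := by exact_mod_cast h2.le
    have h5 := Real.log_le_log hN h4
    rw [Real.log_pow] at h5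
    push_cast at h5
    exact h5
  have h4 : Real.log 4 = 2 * Real.log 2 := by
    rw [show (4 : ℝ) = 2 ^ 2 by norm_num, Real.log_pow]; norm_num
  have h7 : Real.log 2 < 0.6931471808 := Real.log_two_lt_d9
  have h8 : 0 < Real.log 2 := Real.log_pos (by norm_num)
  have hd2 : δ ^ 2 ≤ 1 := by nlinarith
  have hd0 : 0 < δ ^ 2 := by positivity
  rw [h4] at h3
  calc δ ^ 2 * Real.log S.card ≤ δ ^ 2 * ((n + 1) * (2 * Real.log 2)) :=
        mul_le_mul_of_nonneg_left h3 hd0.le
    _ = (2 * (n * (δ ^ 2 / 2)) + δ ^ 2) * (2 * Real.log 2) := by ring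
    _ ≤ (2 * (J * Real.log 2) + 1) * (2 * Real.log 2) := by gcongr
    _ ≤ (2 * (J * 0.6931471808) + 1 * J) * (2 * 0.6931471808) := by
        gcongr
        linarith
    _ ≤ 4 * (J : ℝ) := by nlinarith

end Pool.Agent.W5h98.KSR
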