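import Pool.Agent.W5h98.KSR.Main
import Pool.Agent.Y352.KSR.Final
import Pool.Agent.Results.MP_c890a7_co.LogRate

/-!
# The improved rate for the minimal balance constants of posets of width `w`
-/

set_option autoImplicit false

open Filter Topology

namespace Pool.Agent.W5h98.KSR

open Pool.Agent.H293R3.BC
open Pool.Agent.TH161.LW hiding info
open Pool.Agent.Y352.KSR hiding fin_core' fin_explicit par_u par_bound Par width_bound
  kahn_saks_rate_of kahn_saks_rate big rate main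

/-- the rate for relations on `Fin n` -/
theorem big : ∃ B : ℝ, 1 ≤ B ∧ ∀ ε : ℝ, 0 < ε → ε < 1 / 2 → ∀ (n : ℕ)
    (r : Fin n → Fin n → Prop), IsPo r → (∃ s : Finset (Fin n),
      Real.exp (B * Real.log (2 / ε) / ε ^ 2) ≤ s.card ∧
      ∀ a ∈ s, ∀ b ∈ s, a ≠ b → ¬ r a b) →
    ∃ x y : Fin n, ¬ r x y ∧ ¬ r y x ∧ 1 / 2 - ε ≤ min
      ((Nat.card {σ : Equiv.Perm (Fin n) //
          (∀ a b, r a b → σ a ≤ σ b) ∧ σ x < σ y} : ℝ) /
        (Nat.card {σ : Equiv.Perm (Fin n) // ∀ a b, r a b → σ a ≤ σ b} : ℝ))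
      ((Nat.card {σ : Equiv.Perm (Fin n) //
          (∀ a b, r a b → σ a ≤ σ b) ∧ σ y < σ x} : ℝ) /
        (Nat.card {σ : Equiv.Perm (Fin n) // ∀ a b, r a b → σ a ≤ σ b} : ℝ)) := by
  obtain ⟨B, hB, hW⟩ := kahn_saks_rate
  refine ⟨B, hB, fun ε hε hε2 n r hr ⟨s, hsW, hs⟩ => ?_⟩
  let _ : PartialOrder (CC n) := po r hr
  have hcard : Fintype.card (CC n) = n := Fintype.card_fin n
  obtain ⟨x, y, -, h1, h2⟩ := hW ε hε hε2.le (CC n) (s : Finset (CC n))
    (fun a ha b hb hab => hs a ha b hb hab) hsW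
  have he : (0 : ℝ) < eN (CC n) := by exact_mod_cast Pool.Agent.TH161.KS.eN_pos (CC n)
  have hpos : (0 : ℝ) < (1 / 2 - ε) * eN (CC n) := mul_pos (by linarith) he
  refine ⟨x, y, ?_, ?_, ?_⟩
  · intro h
    have h3 : eP (CC n) y x = 0 := eP_zero (x := x) (y := y) h
    rw [h3, Nat.cast_zero] at h2
    linarith
  · intro h
    have h3 : eP (CC n) x y = 0 := eP_zero (x := y) (y := x) h
    rw [h3, Nat.cast_zero] at h1
    linarith
  · have e1 := eN_card hcard
    have e2 := eP_card hcard x y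
    have e3 := eP_card hcard y x
    have e1' : eN (CC n) = Nat.card {σ : Equiv.Perm (Fin n) // ∀ a b, r a b → σ a ≤ σ b} := e1
    have e2' : eP (CC n) x y = Nat.card {σ : Equiv.Perm (Fin n) //
      (∀ a b, r a b → σ a ≤ σ b) ∧ σ x < σ y} := e2
    have e3' : eP (CC n) y x = Nat.card {σ : Equiv.Perm (Fin n) //
      (∀ a b, r a b → σ a ≤ σ b) ∧ σ y < σ x} := e3
    rw [← e1', ← e2', ← e3']
    refine le_min ?_ ?_
    · rw [le_div_iff₀ he]; exact h1
    · rw [le_div_iff₀ he]; exact h2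

/-- the rate -/
theorem rate : ∃ B : ℝ, 1 ≤ B ∧ ∀ δ : ℕ → ℝ, IsDelta δ → ∀ (ε : ℝ) (w : ℕ), 0 < ε → ε ≤ 1 / 2 →
    Real.exp (B * Real.log (2 / ε) / ε ^ 2) ≤ w → 1 / 2 - ε ≤ δ w := by
  obtain ⟨B, hB, hW⟩ := big
  refine ⟨B, hB, fun δ hδ ε w hε hε2 hw => ?_⟩
  rcases hε2.lt_or_eq with hε3 | rfl
  · have hw1 : 1 ≤ w := by
      have h1 : (0 : ℝ) < w := lt_of_lt_of_le (Real.exp_pos _) hw
      exact_mod_cast h1
    obtain ⟨n₀, r₀, -, -, h₀⟩ := exists_poset w hw1
    rw [hδ w]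
    refine le_csInf ⟨_, n₀, r₀, h₀.po.1, h₀.po.2.1, h₀.po.2.2, h₀.wid, h₀.wid_le, rfl⟩ ?_
    rintro d ⟨n, r, h1, h2, h3, ⟨s, hs1, hs2⟩, -, rfl⟩
    obtain ⟨x, y, hx, hy, hxy⟩ := hW ε hε hε3 n r ⟨h1, h2, h3⟩ ⟨s, by rw [hs1]; exact hw, hs2⟩
    refine hxy.trans (le_csSup ?_ ⟨x, y, hx, hy, rfl⟩)
    refine ⟨1, ?_⟩
    rintro t ⟨u, v, -, -, rfl⟩
    refine (min_le_left _ _).trans (div_le_one_of_le₀ ?_ (by positivity))
    have h5 : Nat.card {σ : Equiv.Perm (Fin n) // (∀ a b, r a b → σ a ≤ σ b) ∧ σ u < σ v} ≤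
        Nat.card {σ : Equiv.Perm (Fin n) // ∀ a b, r a b → σ a ≤ σ b} :=
      Nat.card_le_card_of_injective (fun σ => ⟨σ.1, σ.2.1⟩) (fun a b h => by
        rw [Subtype.mk.injEq] at h
        exact Subtype.ext h)
    exact_mod_cast h5
  · rw [sub_self]
    exact delta_nonneg hδ w

/-- `δ_w` is not close to one half -/
lemma delta_up {δ : ℕ → ℝ} (hδ : IsDelta δ) (w : ℕ) (hw : 1 ≤ w) :
    δ w < 1 / 2 - Real.log (w + 1) / (40001 * w) := by
  have hw1 : (1 : ℝ) ≤ w := by exact_mod_cast hw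
  have hw0 : (0 : ℝ) < w := by linarith
  rcases Nat.lt_or_ge 1 w with h2 | h2
  · have h1 := (Pool.Agent.Results.MP_c890a7_co.LogRate.result δ hδ).1 w hw
    have hw2 : (2 : ℝ) ≤ w := by exact_mod_cast h2
    have h3 : Real.log ((w : ℝ) + 1) ≤ 2 * Real.log w := by
      have h4 : Real.log ((w : ℝ) ^ 2) = 2 * Real.log w := by rw [Real.log_pow]; norm_num
      rw [← h4]
      refine Real.log_le_log (by linarith) ?_
      nlinarith
    have h5 : 0 < Real.log ((w : ℝ) + 1) := Real.log_pos (by linarith)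
    have h6 : Real.log (w + 1) / (40001 * w) < Real.log w / (20000 * (w : ℝ)) := by
      rw [div_lt_div_iff₀ (by positivity) (by positivity)]
      have h7 : Real.log (w + 1) * (20000 * (w : ℝ)) ≤ 2 * Real.log w * (20000 * w) :=
        mul_le_mul_of_nonneg_right h3 (by positivity)
      have h8 : 0 < Real.log w * w := mul_pos (by linarith) hw0
      linarith
    linarith
  · have h3 : w = 1 := by omega
    subst h3
    have h1 := delta_le hδ 1 le_rfl
    have h4 := Real.log_two_lt_d9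
    norm_num at h1 ⊢
    linarith

/-- the theorem -/
theorem main : ∃ C : ℝ, 0 < C ∧ ∀ δ : ℕ → ℝ, IsDelta δ →
    (∀ (ε : ℝ) (w : ℕ), 0 < ε → ε ≤ 1 / 2 →
      Real.exp (C * Real.log (2 / ε) / ε ^ 2) ≤ w → 1 / 2 - ε ≤ δ w) ∧
    (∀ w : ℕ, 16 ≤ w → 1 / 2 - C * √(Real.log (Real.log w) / Real.log w) ≤ δ w) ∧
    (∀ w v : ℕ, 1 ≤ w → Real.exp (C * w ^ 2 / Real.log (w + 1)) ≤ v → δ w < δ v) ∧
    (∀ w : ℕ, 1 ≤ w → ∃ u : ℕ, w ≤ u ∧ (u : ℝ) ≤ Real.exp (C * w ^ 2 / Real.log (w + 1)) ∧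
      δ u < δ (u + 1)) := by
  obtain ⟨B, hB, hR⟩ := rate
  have hB0 : 0 < B := by linarith
  refine ⟨18 * 40001 ^ 2 * B, by linarith, fun δ hδ => ?_⟩
  have hBB : B ≤ 18 * 40001 ^ 2 * B := by linarith
  have r1 : ∀ (ε : ℝ) (w : ℕ), 0 < ε → ε ≤ 1 / 2 →
      Real.exp (18 * 40001 ^ 2 * B * Real.log (2 / ε) / ε ^ 2) ≤ w → 1 / 2 - ε ≤ δ w := by
    intro ε w hε hε2 hw
    refine hR δ hδ ε w hε hε2 ((Real.exp_le_exp.mpr ?_).trans hw)
    have h1 := log_two_div_ge hε hε2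
    gcongr
  have r3 : ∀ w v : ℕ, 1 ≤ w →
      Real.exp (18 * 40001 ^ 2 * B * w ^ 2 / Real.log (w + 1)) ≤ v → δ w < δ v := by
    intro w v hw hv
    have hw1 : (1 : ℝ) ≤ w := by exact_mod_cast hw
    have hw0 : (0 : ℝ) < w := by linarith
    have hl2 : Real.log 2 ≤ Real.log ((w : ℝ) + 1) := Real.log_le_log (by norm_num) (by linarith)
    have hl3 := Real.log_two_gt_d9
    have hl0 : 0 < Real.log ((w : ℝ) + 1) := by linarith
    have hl4 : Real.log ((w : ℝ) + 1) ≤ w := by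
      have := Real.log_le_sub_one_of_pos (show (0 : ℝ) < (w : ℝ) + 1 by linarith)
      linarith
    refine lt_of_lt_of_le (delta_up hδ w hw) ?_
    refine hR δ hδ _ v (by positivity) ?_ ((Real.exp_le_exp.mpr ?_).trans hv)
    · rw [div_le_iff₀ (by positivity)]
      linarith
    · have h3 : (2 : ℝ) / (Real.log (w + 1) / (40001 * w)) = 80002 * w / Real.log (w + 1) := by
        field_simp
        norm_num
      have h4 : Real.log (80002 * w / Real.log (w + 1)) ≤ 18 * Real.log (w + 1) := by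
        have h5 : (18 : ℝ) * Real.log (w + 1) = Real.log (((w : ℝ) + 1) ^ 18) := by
          rw [Real.log_pow]; norm_num
        rw [h5]
        refine Real.log_le_log (by positivity) ?_
        rw [div_le_iff₀ hl0]
        have h6 : (2 : ℝ) ^ 17 ≤ ((w : ℝ) + 1) ^ 17 := pow_le_pow_left₀ (by norm_num) (by linarith) 17
        have h7 : ((w : ℝ) + 1) ^ 18 = ((w : ℝ) + 1) ^ 17 * (w + 1) := by ring
        rw [h7]
        calc (80002 : ℝ) * w ≤ 2 ^ 17 * (w + 1) * 0.6931471803 := by linarith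
          _ ≤ ((w : ℝ) + 1) ^ 17 * (w + 1) * Real.log (w + 1) := by gcongr; linarith
      have h5 : B * Real.log (2 / (Real.log (w + 1) / (40001 * w))) /
          (Real.log (w + 1) / (40001 * w)) ^ 2 =
          40001 ^ 2 * B * w ^ 2 / Real.log (w + 1) ^ 2 * Real.log (80002 * w / Real.log (w + 1)) := by
        rw [h3]
        field_simp
      rw [h5]
      calc 40001 ^ 2 * B * w ^ 2 / Real.log (w + 1) ^ 2 * Real.log (80002 * w / Real.log (w + 1))
          ≤ 40001 ^ 2 * B * w ^ 2 / Real.log (w + 1) ^ 2 * (18 * Real.log (w + 1)) := by gcongr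
        _ = 18 * 40001 ^ 2 * B * w ^ 2 / Real.log (w + 1) := by
            field_simp
  refine ⟨r1, ?_, r3, ?_⟩
  · intro w hw
    obtain ⟨ℒ, hℒ⟩ : ∃ ℒ : ℝ, ℒ = Real.log w := ⟨_, rfl⟩
    have hw16 : (16 : ℝ) ≤ w := by exact_mod_cast hw
    have hw0 : (0 : ℝ) < w := by linarith
    have hℒ1 : 2.7 ≤ ℒ - 0.05 := by
      have h1 : Real.log 16 ≤ Real.log w := Real.log_le_log (by norm_num) hw16
      have h2 : Real.log 16 = 4 * Real.log 2 := by
        have : (16 : ℝ) = 2 ^ 4 := by norm_num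
        rw [this, Real.log_pow]
        norm_num
      have := Real.log_two_gt_d9
      rw [hℒ]
      linarith
    have hℒ0 : 0 < ℒ := by linarith
    rw [← hℒ]
    obtain ⟨lam, hlam⟩ : ∃ lam : ℝ, lam = Real.log ℒ := ⟨_, rfl⟩
    have hlam1 : 1 ≤ lam := by
      rw [hlam, Real.le_log_iff_exp_le hℒ0]
      have := Real.exp_one_lt_d9
      linarith
    have hlam0 : 0 < lam := by linarith
    rw [← hlam]
    obtain ⟨D, hD⟩ : ∃ D : ℝ, D = 18 * 40001 ^ 2 * B := ⟨_, rfl⟩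
    rw [← hD]
    have hD2 : 2 ≤ D := by linarith
    have hD0 : 0 < D := by linarith
    have hDB : B ≤ D ^ 2 := by
      have h1 : D ≤ D ^ 2 := le_self_pow₀ (by linarith) (by norm_num)
      linarith
    obtain ⟨ε, hε⟩ : ∃ ε : ℝ, ε = D * √(lam / ℒ) := ⟨_, rfl⟩
    rw [← hε]
    have hq0 : 0 < lam / ℒ := by positivity
    have hε0 : 0 < ε := by rw [hε]; positivity
    have h3 : ε ^ 2 = D ^ 2 * lam / ℒ := by
      rw [hε, mul_pow, Real.sq_sqrt hq0.le]; ring
    rcases le_or_gt ε (1 / 2) with hε2 | hε2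
    · refine hR δ hδ ε w hε0 hε2 ?_
      rw [← Real.le_log_iff_exp_le hw0, ← hℒ]
      have h1 : Real.log (2 / ε) ≤ lam := by
        rw [hlam]
        refine Real.log_le_log (by positivity) ?_
        rw [div_le_iff₀ hε0]
        have h4 : (2 : ℝ) ^ 2 ≤ (ℒ * ε) ^ 2 := by
          rw [mul_pow, h3]
          have h5 : ℒ ^ 2 * (D ^ 2 * lam / ℒ) = D ^ 2 * lam * ℒ := by field_simp
          rw [h5]
          calc (2 : ℝ) ^ 2 ≤ D ^ 2 := pow_le_pow_left₀ (by norm_num) hD2 2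
            _ = D ^ 2 * 1 * 1 := by ring
            _ ≤ D ^ 2 * lam * ℒ := by gcongr; linarith
        exact le_of_sq_le_sq h4 (by positivity)
      rw [h3, div_le_iff₀ (by positivity)]
      calc B * Real.log (2 / ε) ≤ D ^ 2 * lam := by
            refine mul_le_mul hDB h1 ?_ (by positivity)
            have := log_two_div_ge hε0 hε2
            linarith
        _ = ℒ * (D ^ 2 * lam / ℒ) := by field_simp
    · have := delta_nonneg hδ w
      linarith
  · intro w hw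
    by_contra hcon
    push Not at hcon
    obtain ⟨X, hX⟩ : ∃ X : ℝ, X = Real.exp (18 * 40001 ^ 2 * B * w ^ 2 / Real.log (w + 1)) :=
      ⟨_, rfl⟩
    rw [← hX] at hcon
    have hXw : (w : ℝ) ≤ X := by
      have hw1 : (1 : ℝ) ≤ w := by exact_mod_cast hw
      have h1 : Real.log 2 ≤ Real.log ((w : ℝ) + 1) := Real.log_le_log (by norm_num) (by linarith)
      have h2 := Real.log_two_gt_d9
      have hl0 : 0 < Real.log ((w : ℝ) + 1) := by linarith
      have hl4 : Real.log ((w : ℝ) + 1) ≤ w := by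
        have := Real.log_le_sub_one_of_pos (show (0 : ℝ) < (w : ℝ) + 1 by linarith)
        linarith
      have h3 : (w : ℝ) ≤ 18 * 40001 ^ 2 * B * w ^ 2 / Real.log (w + 1) := by
        rw [le_div_iff₀ hl0]
        calc (w : ℝ) * Real.log (w + 1) ≤ w * w := by gcongr
          _ = 1 * w ^ 2 := by ring
          _ ≤ 18 * 40001 ^ 2 * B * w ^ 2 := by gcongr; linarith
      rw [hX]
      have h4 := Real.add_one_le_exp (18 * 40001 ^ 2 * B * w ^ 2 / Real.log ((w : ℝ) + 1))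
      linarith
    -- `δ` does not increase up to `⌊X⌋ + 1`
    have h1 : ∀ k : ℕ, ((w + k : ℕ) : ℝ) ≤ X + 1 → δ (w + k) ≤ δ w := by
      intro k
      induction k with
      | zero => intro _; exact le_rfl
      | succ k ih =>
        intro hk
        have h2 : ((w + k : ℕ) : ℝ) ≤ X := by
          push_cast at hk ⊢
          linarith
        exact (hcon (w + k) (by omega) h2).trans (ih (by linarith))
    obtain ⟨v, hv⟩ : ∃ v : ℕ, v = ⌈X⌉₊ := ⟨_, rfl⟩
    have hv1 : X ≤ v := by rw [hv]; exact Nat.le_ceil _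
    have hX0 : 0 ≤ X := by rw [hX]; positivity
    have hv2 : (v : ℝ) ≤ X + 1 := by rw [hv]; exact (Nat.ceil_lt_add_one hX0).le
    have hwv : w ≤ v := by
      have : (w : ℝ) ≤ v := hXw.trans hv1
      exact_mod_cast this
    have h2 := r3 w v hw (by rw [← hX]; exact hv1)
    have h3 := h1 (v - w) (by rw [Nat.add_sub_cancel' hwv]; exact hv2)
    rw [Nat.add_sub_cancel' hwv] at h3
    linarith

end Pool.Agent.W5h98.KSR
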