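import Pool.Agent.W5h98.KSR.Final

/-!
# A better rate for the minimal balance constants of posets of width `w`

With `δ_w` the infimum of the balance constants of the finite posets of width `w`, exactly as in the
problem: there is a constant `C` with `δ_w ≥ 1/2 - ε` as soon as `w ≥ exp (C log (2/ε) / ε²)`, that
is, `1/2 - δ_w ≤ C √(log log w / log w)`.  Hence `δ_w < δ_v` for all `v ≥ exp (C w² / log (w+1))`,
and there is a strict increase `δ_u < δ_{u+1}` with `w ≤ u ≤ exp (C w² / log (w+1))`, for every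
`w ≥ 1`.  (The earlier theorem `WidthRate` has `exp (C log (2/ε)³ / ε⁴)`,
`(log log w)^(3/4) / (log w)^(1/4)` and `exp (C w⁴ log (w+1)³)`.)

The new ingredient is `Pool.Agent.W5h98.KSR.info`: if `S` is a family of random variables with
`2 ^ J` values on a finite probability space and `|P (X < Y) - P (Y < X)| ≥ ε` for all `X ≠ Y` in
`S`, then `ε² log |S| ≤ 4 J`.
-/

set_option autoImplicit false

namespace Pool.Agent.Results.MP_c890a7_co.SqrtLogRate

theorem result : ∃ C : ℝ, 0 < C ∧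
    ∀ δ : ℕ → ℝ,
      (∀ w : ℕ, δ w = sInf {d : ℝ | ∃ (n : ℕ) (r : Fin n → Fin n → Prop),
          (∀ a, r a a) ∧ (∀ a b c, r a b → r b c → r a c) ∧
          (∀ a b, r a b → r b a → a = b) ∧
          (∃ s : Finset (Fin n), s.card = w ∧ ∀ a ∈ s, ∀ b ∈ s, a ≠ b → ¬ r a b) ∧
          (∀ s : Finset (Fin n), (∀ a ∈ s, ∀ b ∈ s, a ≠ b → ¬ r a b) → s.card ≤ w) ∧
          d = sSup {t : ℝ | ∃ x y : Fin n, ¬ r x y ∧ ¬ r y x ∧
            t = min
              ((Nat.card {σ : Equiv.Perm (Fin n) //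
                  (∀ a b, r a b → σ a ≤ σ b) ∧ σ x < σ y} : ℝ) /
                (Nat.card {σ : Equiv.Perm (Fin n) // ∀ a b, r a b → σ a ≤ σ b} : ℝ))
              ((Nat.card {σ : Equiv.Perm (Fin n) //
                  (∀ a b, r a b → σ a ≤ σ b) ∧ σ y < σ x} : ℝ) /
                (Nat.card {σ : Equiv.Perm (Fin n) // ∀ a b, r a b → σ a ≤ σ b} : ℝ))}}) →
      (∀ (ε : ℝ) (w : ℕ), 0 < ε → ε ≤ 1 / 2 →
        Real.exp (C * Real.log (2 / ε) / ε ^ 2) ≤ w → 1 / 2 - ε ≤ δ w) ∧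
      (∀ w : ℕ, 16 ≤ w → 1 / 2 - C * √(Real.log (Real.log w) / Real.log w) ≤ δ w) ∧
      (∀ w v : ℕ, 1 ≤ w → Real.exp (C * w ^ 2 / Real.log (w + 1)) ≤ v → δ w < δ v) ∧
      (∀ w : ℕ, 1 ≤ w → ∃ u : ℕ, w ≤ u ∧
        (u : ℝ) ≤ Real.exp (C * w ^ 2 / Real.log (w + 1)) ∧ δ u < δ (u + 1)) :=
  Pool.Agent.W5h98.KSR.main

end Pool.Agent.Results.MP_c890a7_co.SqrtLogRate
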